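import Pool.Agent.ChoicelessEmb.Defs
import Pool.Agent.ChoicelessEmb.Final

set_option autoImplicit false

/-! # A nontrivial elementary embedding of V into a set-forcing extension V[G], without AC

The definitions used in the statement are all in `Pool/Agent/ChoicelessEmb/Defs.lean`.

The model `M` is the basic Cohen model `W(A)`, where `A` is the set of countably many mutually
Cohen generic filters, and `N = M[G] = W(A ∪ {G})` for one more Cohen generic filter `G`.
The embedding sends the value of a hereditarily symmetric name to the value of the name obtained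
by a bijection between the two index sets which fixes a finite support of the name. -/

namespace Pool.Agent.Results.MP_c3e1ed_lc.GroundIntoExtension

open FirstOrder Pool.Agent.ChoicelessEmb

open LName in
/-- There are a countable transitive model `M` of ZF, a set-forcing extension `N = M[G]` of `M`
with `G ∉ M`, and a nontrivial elementary embedding `j : M → N` such that `(N, ∈, j)` satisfies
ZF with Separation and Replacement for all formulas in which the graph `J` of `j` may occur. -/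
theorem result :
    ∃ (M N : Set ZFSet.{0}) (P R t G : ZFSet.{0}) (j : M ↪ₑ[LEps] N),
      M.Countable ∧
      ModelsZF LEps M ∧
      IsForcingExtension M N P R t G ∧
      M ⊆ N ∧ G ∈ N ∧ G ∉ M ∧
      (∃ x : M, (j x : ZFSet.{0}) ≠ (x : ZFSet.{0})) ∧
      @ModelsZF LEpsJ N (epsJStructure N fun x y => ∃ a : M, (a : ZFSet.{0}) = x ∧ j a = y) := by
  obtain ⟨Z, hZc, hZ, hωZ, hPZ, hRZ, hcZ⟩ := exists_Z (code := cohCode)
    (fun s => Encodable.encode (α := List Bool) s) (fun _ => rfl)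
  obtain ⟨X₀, X₁, h0c, h1c, hX⟩ := exists_sysClosed (C := Coh) cohCode hZc
  obtain ⟨g, hg⟩ := exists_sysGen cohCode h0c h1c
  have hg0 := isFil_resF hg.fil
  have hc := cohCode_injective
  -- the embedding
  let j : Mod X₀ (resF g) ↪ₑ[LEps] Mod X₁ g :=
    ⟨jj hX, fun n φ a => jj_elem hX hg φ a⟩
  -- infinity
  have hω : ∅ ∈ omegaZ ∧ ∀ n ∈ omegaZ, insert n n ∈ omegaZ := by
    refine ⟨ZFSet.mem_range.2 ⟨0, rfl⟩, ?_⟩
    intro n hn
    obtain ⟨m, rfl⟩ := ZFSet.mem_range.1 hn
    exact ZFSet.mem_range.2 ⟨m + 1, rfl⟩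
  have hM : ModelsZF LEps (Mod X₀ (resF g)) :=
    modelsZF hX.o0 hg.a0 hg.f0 (by
      intro m R xs
      cases R
      exact val_mem_iff hX.o0.atom hg.a0 (xs 0).2 (xs 1).2)
      ⟨omegaZ, ⟨checkN omegaZ, hX.check0 _ hωZ, val_checkN hg0 hZ hX.check0 _ hωZ⟩, hω⟩
  have hN : @ModelsZF LEpsJ (Mod X₁ g) (epsJStructure _ (JRel hX)) := by
    let _ := epsJStructure (Mod X₁ g) (JRel hX)
    exact modelsZF hX.o1J hg.a1 hg.f1J (fun R xs => truthJ hX hg R xs)
      ⟨omegaZ, ⟨checkN omegaZ, hX.check1 _ hωZ, val_checkN hg.fil hZ hX.check1 _ hωZ⟩, hω⟩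
  have hgen := isGenericFilter hX hg hZ hcZ hc
  have hP : setP cohCode ∈ Mod X₀ (resF g) :=
    ⟨checkN (setP cohCode), hX.check0 _ hPZ, val_checkN hg0 hZ hX.check0 _ hPZ⟩
  have hR : setR cohCode ∈ Mod X₀ (resF g) :=
    ⟨checkN (setR cohCode), hX.check0 _ hRZ, val_checkN hg0 hZ hX.check0 _ hRZ⟩
  -- the generic filter does not belong to the ground model
  have hG : setG cohCode g ∉ Mod X₀ (resF g) := by
    intro hG
    let φ : LEps.Formula (Fin 2) :=
      (Language.Relations.formula₂ (EpsRel.mem : LEps.Relations 2)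
        (Language.Term.var (0 : Fin 2)) (Language.Term.var (1 : Fin 2))).not
    obtain ⟨D, hD⟩ := hM.separation 1 φ (fun _ => ⟨_, hG⟩) ⟨_, hP⟩
    have hD' : ∀ z : Mod X₀ (resF g), z.1 ∈ D.1 ↔ z.1 ∈ setP cohCode ∧
        z.1 ∉ setG cohCode g := by
      intro z
      rw [hD z]
      apply and_congr Iff.rfl
      simp only [φ, Language.Formula.realize_not]
      exact Iff.rfl
    obtain ⟨p, hpG, hpD⟩ := hgen.generic D.1 D.2
      (fun d hd => ((hD' ⟨d, hM.transitive _ D.2 d hd⟩).1 hd).1) (by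
        intro p hp
        obtain ⟨s, rfl⟩ := (mem_setP cohCode).1 hp
        obtain ⟨s₀, s₁, h0, h1, h01⟩ := Coh.split s
        have key : ∀ s', s' ∉ GC g → cohCode s' ∈ D.1 := by
          intro s' hs'
          have hm : cohCode s' ∈ setP cohCode := (mem_setP cohCode).2 ⟨s', rfl⟩
          refine (hD' ⟨cohCode s', hM.transitive _ hP _ hm⟩).2 ⟨hm, fun h => hs' ?_⟩
          exact (code_mem_setG hc).1 h
        by_cases hs0 : s₀ ∈ GC g
        · by_cases hs1 : s₁ ∈ GC g
          · exfalso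
            obtain ⟨r, _, hr0, hr1⟩ := hg.fil.dir _ _ hs0 hs1
            exact h01 (r.1 none) ⟨le_single.1 hr0, le_single.1 hr1⟩
          · exact ⟨cohCode s₁, key s₁ hs1, (pair_mem_setR hc).2 h1⟩
        · exact ⟨cohCode s₀, key s₀ hs0, (pair_mem_setR hc).2 h0⟩)
    exact ((hD' ⟨p, hM.transitive _ D.2 p hpD⟩).1 hpD).2 hpG
  refine ⟨Mod X₀ (resF g), Mod X₁ g, setP cohCode, setR cohCode, cohCode ⊤, setG cohCode g, j,
    h0c.image _, hM, ⟨hP, hR, isForcingNotion hc, hgen, valG (setG cohCode g),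
      isEvaluation_valG _, mod_eq_image hX hg hZ hcZ hc (isEvaluation_valG _)⟩, ?_,
    setG_mem hX hg.fil hZ hcZ, hG, ?_, hN⟩
  · rintro _ ⟨x, hx, rfl⟩
    exact ⟨iotaN x, hX.iota x hx, val_iotaN hX hx⟩
  -- nontriviality: the set of all generic filters is moved
  refine ⟨ev X₀ (resF g) ⟨aN Coh ℕ cohCode, hX.a0⟩, fun h => hG ?_⟩
  have h1 : (j (ev X₀ (resF g) ⟨aN Coh ℕ cohCode, hX.a0⟩) : ZFSet.{0}) =
      val X₁ g (aN Coh (Option ℕ) cohCode) := by
    change (jj hX (ev X₀ (resF g) ⟨aN Coh ℕ cohCode, hX.a0⟩) : ZFSet.{0}) = _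
    rw [jj_ev hX hg]
    change val X₁ g (jn (aN Coh ℕ cohCode)) = _
    congr 1
    exact act_aN cohCode _
  have h2 : setG cohCode g ∈ val X₁ g (aN Coh (Option ℕ) cohCode) := by
    refine mem_val.2 ⟨gN cohCode none, ⊤, (mem_ch_aN cohCode).2 ⟨none, rfl, rfl⟩, hX.g1 none,
      hg.fil.top_mem, ?_⟩
    exact (val_gN hX hg.fil hZ hcZ).symm
  rw [← h1, h] at h2
  exact hM.transitive _ (ev X₀ (resF g) ⟨aN Coh ℕ cohCode, hX.a0⟩).2 _ h2

end Pool.Agent.Results.MP_c3e1ed_lc.GroundIntoExtension
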